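import Mathlib

set_option autoImplicit false

namespace Pool.Agent.Helper63.Bog

open Finset

/-- The bad assignments for a pair `P ⊆ U`. -/
def Bad (N n : ℕ) (U P : Finset (Fin N)) : Set (Fin N → Fin n → ZMod 2) :=
  {a | ∀ p ∈ P, a p ∈ Submodule.span (ZMod 2) (a '' (↑(U \ P) : Set (Fin N)))}

theorem card_bad (N n : ℕ) (U P : Finset (Fin N)) :
    Nat.card (Bad N n U P) ≤ (2 ^ n) ^ (N - #P) * (2 ^ #U) ^ #P := by
  classical
  -- coefficients
  have hcoef : ∀ a ∈ Bad N n U P, ∀ p ∈ P, ∃ c : U → ZMod 2,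
      a p = ∑ q ∈ U.attach.filter (fun q : U => (q : Fin N) ∉ P), c q • a (q : Fin N) := by
    intro a ha p hp
    have h1' := ha p hp
    rw [Finsupp.mem_span_image_iff_linearCombination] at h1'
    obtain ⟨l, hl, hl2⟩ := h1'
    rw [Finsupp.mem_supported] at hl
    refine ⟨fun q : U => l (q : Fin N), ?_⟩
    have h2 : (l.sum fun i z => z • a i) = ∑ i ∈ U \ P, l i • a i :=
      Finsupp.sum_of_support_subset l (s := U \ P) (by exact_mod_cast hl) _
        (fun i _ => zero_smul _ _)
    rw [← hl2, Finsupp.linearCombination_apply, h2]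
    symm
    refine sum_bij (fun (q : U) _ => (q : Fin N)) ?_ ?_ ?_ ?_
    · intro q hq
      exact mem_sdiff.2 ⟨q.2, (mem_filter.1 hq).2⟩
    · intro q _ q' _ h
      exact Subtype.ext h
    · intro i hi
      obtain ⟨hi1, hi2⟩ := mem_sdiff.1 hi
      exact ⟨⟨i, hi1⟩, mem_filter.2 ⟨mem_attach _ _, hi2⟩, rfl⟩
    · intro q _
      rfl
  choose! C hC using hcoef
  let F : Bad N n U P → ({i : Fin N // i ∉ P} → Fin n → ZMod 2) × (P → U → ZMod 2) :=
    fun a => (fun i => a.1 i, fun p => C a.1 p)
  have hF : Function.Injective F := by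
    rintro ⟨a, ha⟩ ⟨b, hb⟩ hab
    have h1 : ∀ i : Fin N, i ∉ P → a i = b i := by
      intro i hi
      have := congrFun (Prod.mk.inj hab).1 ⟨i, hi⟩
      exact this
    have h2 : ∀ p : P, C a p = C b p := by
      intro p
      exact congrFun (Prod.mk.inj hab).2 p
    apply Subtype.ext
    funext i
    by_cases hi : i ∈ P
    · show a i = b i
      rw [hC a ha i hi, hC b hb i hi, h2 ⟨i, hi⟩]
      refine sum_congr rfl fun q hq => ?_
      rw [h1 q (mem_filter.1 hq).2]
    · exact h1 i hi
  have h3 := Nat.card_le_card_of_injective F hF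
  refine h3.trans (le_of_eq ?_)
  rw [Nat.card_prod, Nat.card_eq_fintype_card, Nat.card_eq_fintype_card]
  rw [Fintype.card_fun, Fintype.card_fun, Fintype.card_fun, Fintype.card_fun, ZMod.card,
    Fintype.card_fin, Fintype.card_coe, Fintype.card_coe]
  congr 2
  rw [Fintype.card_subtype_compl, Fintype.card_fin, Fintype.card_coe]

theorem exists_good (t u0 : ℕ) : ∃ j0 : ℕ, ∀ j, j0 ≤ j →
    ∃ a : Fin (2 ^ (t * j)) → Fin ((4 * t + 1) * j) → ZMod 2,
      ∀ U : Finset (Fin (2 ^ (t * j))), #U ≤ u0 → ∀ P ⊆ U,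
        a ∈ Bad _ _ U P → (4 * t + 1) * #P ≤ t * #U := by
  classical
  refine ⟨(u0 + 1) * 2 ^ (u0 + u0 * u0), fun j hj => ?_⟩
  by_contra hcon
  push Not at hcon
  set N := 2 ^ (t * j) with hN
  set n := (4 * t + 1) * j with hn
  -- all assignments are bad
  have hcov : (univ : Finset (Fin N → Fin n → ZMod 2)) ⊆
      (range (u0 + 1)).biUnion fun u => (powersetCard u (univ : Finset (Fin N))).biUnion fun U =>
        (U.powerset.filter fun P => t * #U < (4 * t + 1) * #P).biUnion fun P =>
          (univ.filter fun a => a ∈ Bad N n U P) := by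
    intro a _
    obtain ⟨U, hU, P, hPU, hb, hlt⟩ := hcon a
    simp only [mem_biUnion, mem_range, mem_powersetCard, mem_filter, mem_powerset, mem_univ,
      true_and]
    exact ⟨#U, by omega, U, ⟨subset_univ _, rfl⟩, P, ⟨hPU, hlt⟩, hb⟩
  have hcard : #(univ : Finset (Fin N → Fin n → ZMod 2)) = 2 ^ (n * N) := by
    rw [card_univ, Fintype.card_fun, Fintype.card_fun, ZMod.card, Fintype.card_fin,
      Fintype.card_fin, ← pow_mul]
  have hb : ∀ U P : Finset (Fin N), #(univ.filter fun a => a ∈ Bad N n U P) ≤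
      (2 ^ n) ^ (N - #P) * (2 ^ #U) ^ #P := by
    intro U P
    refine le_trans (le_of_eq ?_) (card_bad N n U P)
    rw [Nat.card_eq_fintype_card, Fintype.card_subtype]
  have hterm : ∀ u ∈ range (u0 + 1), 2 ^ j * #((powersetCard u (univ : Finset (Fin N))).biUnion
      fun U => (U.powerset.filter fun P => t * #U < (4 * t + 1) * #P).biUnion fun P =>
          (univ.filter fun a => a ∈ Bad N n U P)) ≤ 2 ^ (u0 + u0 * u0) * 2 ^ (n * N) := by
    intro u hu
    have hu' : u ≤ u0 := by
      have := mem_range.1 hu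
      omega
    have hU : ∀ U ∈ powersetCard u (univ : Finset (Fin N)),
        N ^ u * 2 ^ j * #((U.powerset.filter fun P => t * #U < (4 * t + 1) * #P).biUnion fun P =>
          (univ.filter fun a => a ∈ Bad N n U P)) ≤ 2 ^ (u0 + u0 * u0) * 2 ^ (n * N) := by
      intro U hUm
      have hUc : #U = u := (mem_powersetCard.1 hUm).2
      have hP : ∀ P ∈ U.powerset.filter fun P => t * #U < (4 * t + 1) * #P,
          N ^ u * 2 ^ j * #(univ.filter fun a => a ∈ Bad N n U P) ≤
            2 ^ (u0 * u0) * 2 ^ (n * N) := by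
        intro P hPm
        obtain ⟨hPU, hlt⟩ := mem_filter.1 hPm
        have hPU' := mem_powerset.1 hPU
        have hPc : #P ≤ u := hUc ▸ card_le_card hPU'
        have hPN : #P ≤ N := by
          have := card_le_univ P
          rwa [Fintype.card_fin] at this
        rw [hUc] at hlt
        have e1 : t * j * u + j ≤ n * #P := by
          rw [hn]
          calc t * j * u + j = (t * u + 1) * j := by ring
            _ ≤ ((4 * t + 1) * #P) * j := Nat.mul_le_mul_right _ (by omega)
            _ = (4 * t + 1) * j * #P := by ring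
        have e2 : n * N = n * (N - #P) + n * #P := by
          rw [← Nat.mul_add, Nat.sub_add_cancel hPN]
        calc N ^ u * 2 ^ j * #(univ.filter fun a => a ∈ Bad N n U P)
            ≤ N ^ u * 2 ^ j * ((2 ^ n) ^ (N - #P) * (2 ^ #U) ^ #P) :=
              Nat.mul_le_mul_left _ (hb U P)
          _ = 2 ^ (t * j * u + j + n * (N - #P) + u * #P) := by
              rw [hUc]
              simp only [hN, pow_add, pow_mul]
              ring
          _ ≤ 2 ^ (u0 * u0 + n * N) := by
              apply Nat.pow_le_pow_right (by norm_num)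
              have : u * #P ≤ u0 * u0 := Nat.mul_le_mul hu' (hPc.trans hu')
              omega
          _ = 2 ^ (u0 * u0) * 2 ^ (n * N) := by rw [pow_add]
      calc N ^ u * 2 ^ j * #((U.powerset.filter fun P => t * #U < (4 * t + 1) * #P).biUnion
            fun P => (univ.filter fun a => a ∈ Bad N n U P))
          ≤ N ^ u * 2 ^ j * ∑ P ∈ U.powerset.filter fun P => t * #U < (4 * t + 1) * #P,
              #(univ.filter fun a => a ∈ Bad N n U P) := Nat.mul_le_mul_left _ card_biUnion_le
        _ = ∑ P ∈ U.powerset.filter fun P => t * #U < (4 * t + 1) * #P,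
              N ^ u * 2 ^ j * #(univ.filter fun a => a ∈ Bad N n U P) := by rw [mul_sum]
        _ ≤ #(U.powerset.filter fun P => t * #U < (4 * t + 1) * #P) •
              (2 ^ (u0 * u0) * 2 ^ (n * N)) := sum_le_card_nsmul _ _ _ hP
        _ ≤ 2 ^ u0 * (2 ^ (u0 * u0) * 2 ^ (n * N)) := by
            rw [smul_eq_mul]
            apply Nat.mul_le_mul_right
            calc _ ≤ #U.powerset := card_filter_le _ _
              _ = 2 ^ u := by rw [card_powerset, hUc]
              _ ≤ 2 ^ u0 := Nat.pow_le_pow_right (by norm_num) hu'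
        _ = 2 ^ (u0 + u0 * u0) * 2 ^ (n * N) := by rw [pow_add]; ring
    have hNpos : 0 < N ^ u := by
      have : 0 < N := by rw [hN]; positivity
      positivity
    apply Nat.le_of_mul_le_mul_left _ hNpos
    calc N ^ u * (2 ^ j * #((powersetCard u (univ : Finset (Fin N))).biUnion
          fun U => (U.powerset.filter fun P => t * #U < (4 * t + 1) * #P).biUnion fun P =>
          (univ.filter fun a => a ∈ Bad N n U P)))
        ≤ N ^ u * (2 ^ j * ∑ U ∈ powersetCard u (univ : Finset (Fin N)),
          #((U.powerset.filter fun P => t * #U < (4 * t + 1) * #P).biUnion fun P =>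
          (univ.filter fun a => a ∈ Bad N n U P))) :=
          Nat.mul_le_mul_left _ (Nat.mul_le_mul_left _ card_biUnion_le)
      _ = ∑ U ∈ powersetCard u (univ : Finset (Fin N)), N ^ u * 2 ^ j *
          #((U.powerset.filter fun P => t * #U < (4 * t + 1) * #P).biUnion fun P =>
          (univ.filter fun a => a ∈ Bad N n U P)) := by
          rw [← mul_assoc, mul_sum]
      _ ≤ #(powersetCard u (univ : Finset (Fin N))) • (2 ^ (u0 + u0 * u0) * 2 ^ (n * N)) :=
          sum_le_card_nsmul _ _ _ hU
      _ ≤ N ^ u * (2 ^ (u0 + u0 * u0) * 2 ^ (n * N)) := by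
          rw [smul_eq_mul]
          apply Nat.mul_le_mul_right
          rw [card_powersetCard, card_univ, Fintype.card_fin]
          exact Nat.choose_le_pow N u
  have htot : 2 ^ j * 2 ^ (n * N) ≤ (u0 + 1) * (2 ^ (u0 + u0 * u0) * 2 ^ (n * N)) := by
    calc 2 ^ j * 2 ^ (n * N) = 2 ^ j * #(univ : Finset (Fin N → Fin n → ZMod 2)) := by rw [hcard]
      _ ≤ 2 ^ j * #((range (u0 + 1)).biUnion fun u =>
          (powersetCard u (univ : Finset (Fin N))).biUnion fun U =>
        (U.powerset.filter fun P => t * #U < (4 * t + 1) * #P).biUnion fun P =>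
          (univ.filter fun a => a ∈ Bad N n U P)) := Nat.mul_le_mul_left _ (card_le_card hcov)
      _ ≤ 2 ^ j * ∑ u ∈ range (u0 + 1), #((powersetCard u (univ : Finset (Fin N))).biUnion
          fun U => (U.powerset.filter fun P => t * #U < (4 * t + 1) * #P).biUnion fun P =>
          (univ.filter fun a => a ∈ Bad N n U P)) := Nat.mul_le_mul_left _ card_biUnion_le
      _ = ∑ u ∈ range (u0 + 1), 2 ^ j * #((powersetCard u (univ : Finset (Fin N))).biUnion
          fun U => (U.powerset.filter fun P => t * #U < (4 * t + 1) * #P).biUnion fun P =>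
          (univ.filter fun a => a ∈ Bad N n U P)) := by rw [mul_sum]
      _ ≤ #(range (u0 + 1)) • (2 ^ (u0 + u0 * u0) * 2 ^ (n * N)) := sum_le_card_nsmul _ _ _ hterm
      _ = (u0 + 1) * (2 ^ (u0 + u0 * u0) * 2 ^ (n * N)) := by
          rw [card_range, smul_eq_mul]
  have h1 : j < 2 ^ j := Nat.lt_two_pow_self
  have h2 : 2 ^ j * 2 ^ (n * N) ≤ ((u0 + 1) * 2 ^ (u0 + u0 * u0)) * 2 ^ (n * N) := by
    calc _ ≤ _ := htot
      _ = _ := by ring
  have h3 := Nat.le_of_mul_le_mul_right h2 (by positivity)
  omega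

end Pool.Agent.Helper63.Bog
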