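import Mathlib
import Pool.Agent.Helper63.Bog.Count

set_option autoImplicit false

namespace Pool.Agent.Helper63.Bog

open Finset Module

/-- The number of subsets of `U` of size at most four. -/
theorem card_small {N : ℕ} (U : Finset (Fin N)) (S : Finset (Finset (Fin N)))
    (hS : ∀ T ∈ S, T ⊆ U ∧ #T ≤ 4) : #S ≤ (#U + 1) ^ 4 := by
  classical
  have h1 : S ⊆ (range 5).biUnion fun i => powersetCard i U := by
    intro T hT
    obtain ⟨h1, h2⟩ := hS T hT
    simp only [mem_biUnion, mem_range, mem_powersetCard]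
    exact ⟨#T, by omega, h1, rfl⟩
  calc #S ≤ #((range 5).biUnion fun i => powersetCard i U) := card_le_card h1
    _ ≤ ∑ i ∈ range 5, #(powersetCard i U) := card_biUnion_le
    _ ≤ ∑ i ∈ range 5, #U ^ i := by
        apply sum_le_sum
        intro i _
        rw [card_powersetCard]
        exact Nat.choose_le_pow _ _
    _ ≤ (#U + 1) ^ 4 := by
        simp only [sum_range_succ, sum_range_zero]
        nlinarith [Nat.zero_le (#U), Nat.zero_le (#U ^ 2), Nat.zero_le (#U ^ 3)]

/-- The map sending coefficients to the combination of the points. -/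
noncomputable def comb {N n : ℕ} (a : Fin N → Fin n → ZMod 2) :
    (Fin N → ZMod 2) →ₗ[ZMod 2] (Fin n → ZMod 2) :=
  ∑ i, (LinearMap.proj i : (Fin N → ZMod 2) →ₗ[ZMod 2] ZMod 2).smulRight (a i)

theorem comb_apply {N n : ℕ} (a : Fin N → Fin n → ZMod 2) (c : Fin N → ZMod 2) :
    comb a c = ∑ i, c i • a i := by
  simp [comb]

theorem exists_coeff {N n : ℕ} (a : Fin N → Fin n → ZMod 2) (v : Fin n → ZMod 2)
    (h : ∃ i1 i2 i3 i4, v = a i1 + a i2 - a i3 - a i4) :
    ∃ c : Fin N → ZMod 2, comb a c = v ∧ #(univ.filter fun i => c i ≠ 0) ≤ 4 := by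
  classical
  obtain ⟨i1, i2, i3, i4, rfl⟩ := h
  refine ⟨Pi.single i1 1 + Pi.single i2 1 - Pi.single i3 1 - Pi.single i4 1, ?_, ?_⟩
  · rw [map_sub, map_sub, map_add]
    have h : ∀ i, comb a (Pi.single i 1) = a i := by
      intro i
      rw [comb_apply, sum_eq_single i]
      · simp
      · intro j _ hj
        rw [Pi.single_eq_of_ne hj, zero_smul]
      · simp
    rw [h, h, h, h]
  · refine le_trans (card_le_card (t := {i1, i2, i3, i4}) ?_) (card_le_four)
    intro i hi
    rw [mem_filter] at hi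
    by_contra hcon
    simp only [mem_insert, mem_singleton, not_or] at hcon
    obtain ⟨h1, h2, h3, h4⟩ := hcon
    apply hi.2
    simp [Pi.single_eq_of_ne h1, Pi.single_eq_of_ne h2, Pi.single_eq_of_ne h3,
      Pi.single_eq_of_ne h4]

theorem exists_sub_finrank {n d0 : ℕ} (V : Submodule (ZMod 2) (Fin n → ZMod 2))
    (h : d0 ≤ finrank (ZMod 2) V) :
    ∃ V0 : Submodule (ZMod 2) (Fin n → ZMod 2), V0 ≤ V ∧ finrank (ZMod 2) V0 = d0 := by
  obtain ⟨f, hf⟩ := exists_linearIndependent_of_le_finrank h
  refine ⟨Submodule.span (ZMod 2) (Set.range fun i => (f i : Fin n → ZMod 2)), ?_, ?_⟩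
  · rw [Submodule.span_le]
    rintro _ ⟨i, rfl⟩
    exact (f i).2
  · have h2 : LinearIndependent (ZMod 2) fun i => (f i : Fin n → ZMod 2) :=
      hf.map' V.subtype (Submodule.ker_subtype V)
    rw [finrank_span_eq_card h2, Fintype.card_fin]


theorem dim_lt {N n t d0 : ℕ} (a : Fin N → Fin n → ZMod 2)
    (hgood : ∀ U : Finset (Fin N), #U ≤ 4 * 2 ^ d0 → ∀ P ⊆ U,
      a ∈ Bad N n U P → (4 * t + 1) * #P ≤ t * #U)
    (hd0 : (4 * ((4 * t + 1) * d0) + 1) ^ 4 < 2 ^ d0)
    (V : Submodule (ZMod 2) (Fin n → ZMod 2))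
    (hV : ∀ v ∈ V, ∃ i1 i2 i3 i4, v = a i1 + a i2 - a i3 - a i4) :
    finrank (ZMod 2) V < d0 := by
  classical
  by_contra hcon
  push Not at hcon
  obtain ⟨V0, hV0, hdim⟩ := exists_sub_finrank V hcon
  have hw : ∀ v : V0, ∃ c : Fin N → ZMod 2, comb a c = v ∧
      #(univ.filter fun i => c i ≠ 0) ≤ 4 := fun v => exists_coeff a v (hV v (hV0 v.2))
  choose w hw1 hw2 using hw
  have hcardV0 : Nat.card V0 = 2 ^ d0 := by
    rw [Module.natCard_eq_pow_finrank (K := ZMod 2), Nat.card_zmod, hdim]
  -- a basis of the coefficient space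
  obtain ⟨κ, f, hf, hspan, hind⟩ := exists_linearIndependent' (ZMod 2) w
  have : Finite κ := Finite.of_injective f hf
  have : Fintype κ := Fintype.ofFinite κ
  set E := Submodule.span (ZMod 2) (Set.range w) with hE
  have hEdim : finrank (ZMod 2) E = Fintype.card κ := by
    rw [← hspan]
    exact finrank_span_eq_card hind
  have hκ : Fintype.card κ ≤ 2 ^ d0 := by
    rw [← hcardV0, ← Nat.card_eq_fintype_card]
    exact Nat.card_le_card_of_injective f hf
  -- the support
  set U : Finset (Fin N) := univ.biUnion fun k : κ => univ.filter fun i => w (f k) i ≠ 0 with hU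
  have hUcard : #U ≤ 4 * Fintype.card κ := by
    calc #U ≤ ∑ k : κ, #(univ.filter fun i => w (f k) i ≠ 0) := card_biUnion_le
      _ ≤ ∑ _k : κ, 4 := sum_le_sum fun k _ => hw2 _
      _ = 4 * Fintype.card κ := by rw [sum_const, card_univ, smul_eq_mul, mul_comm]
  have hUsmall : #U ≤ 4 * 2 ^ d0 := hUcard.trans (Nat.mul_le_mul_left _ hκ)
  have hsupp : ∀ c ∈ E, ∀ i, i ∉ U → c i = 0 := by
    intro c hc i hi
    have h1 : E ≤ LinearMap.ker (LinearMap.proj i : (Fin N → ZMod 2) →ₗ[ZMod 2] ZMod 2) := by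
      rw [← hspan, Submodule.span_le]
      rintro _ ⟨k, rfl⟩
      by_contra hne
      apply hi
      rw [hU, mem_biUnion]
      exact ⟨k, mem_univ _, mem_filter.2 ⟨mem_univ _, fun h => hne (by simpa using h)⟩⟩
    have h2 := h1 hc
    simpa using h2
  have hwE : ∀ v, w v ∈ E := fun v => Submodule.subset_span ⟨v, rfl⟩
  -- counting
  have hcount : 2 ^ d0 ≤ (#U + 1) ^ 4 := by
    have h1 : Function.Injective fun v : V0 => univ.filter fun i => w v i ≠ 0 := by
      intro v v' h
      have h2 : w v = w v' := by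
        funext i
        have h3 : w v i ≠ 0 ↔ w v' i ≠ 0 := by
          have := Finset.ext_iff.1 h i
          simpa using this
        have h4 : ∀ x y : ZMod 2, (x ≠ 0 ↔ y ≠ 0) → x = y := by decide
        exact h4 _ _ h3
      apply Subtype.ext
      rw [← hw1 v, ← hw1 v', h2]
    have : Fintype V0 := Fintype.ofFinite V0
    have h2 := card_small U (univ.image fun v : V0 => univ.filter fun i => w v i ≠ 0) (by
      intro T hT
      obtain ⟨v, _, rfl⟩ := mem_image.1 hT
      refine ⟨?_, hw2 v⟩
      intro i hi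
      by_contra hcon2
      exact (mem_filter.1 hi).2 (hsupp _ (hwE v) i hcon2))
    rw [card_image_of_injective _ h1, card_univ, ← Nat.card_eq_fintype_card, hcardV0] at h2
    exact h2
  -- a basis of the points indexed by `U`
  obtain ⟨κ', f', hf', hspan', hind'⟩ :=
    exists_linearIndependent' (ZMod 2) (fun i : U => a (i : Fin N))
  have : Finite κ' := Finite.of_injective f' hf'
  have : Fintype κ' := Fintype.ofFinite κ'
  set B : Finset (Fin N) := univ.image fun k : κ' => ((f' k : U) : Fin N) with hB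
  have hBU : B ⊆ U := by
    intro i hi
    obtain ⟨k, _, rfl⟩ := mem_image.1 hi
    exact (f' k).2
  set P := U \ B with hP
  have hUP : U \ P = B := by
    rw [hP, sdiff_sdiff_right_self]
    exact inf_eq_right.2 hBU
  have hBad : a ∈ Bad N n U P := by
    intro p hp
    rw [hUP]
    have hpU : p ∈ U := (mem_sdiff.1 hp).1
    have h1 : a p ∈ Submodule.span (ZMod 2) (Set.range fun i : U => a (i : Fin N)) :=
      Submodule.subset_span ⟨⟨p, hpU⟩, rfl⟩
    rw [← hspan'] at h1
    refine Submodule.span_mono ?_ h1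
    rintro _ ⟨k, rfl⟩
    exact ⟨(f' k : U), by
      rw [hB]
      simp, rfl⟩
  have hg := hgood U hUsmall P sdiff_subset hBad
  -- the kernel
  set φ := (comb a).domRestrict E with hφ
  have hrange : finrank (ZMod 2) (LinearMap.range φ) ≤ d0 := by
    rw [← hdim]
    apply Submodule.finrank_mono
    rw [LinearMap.range_domRestrict, hE, Submodule.map_span, Submodule.span_le]
    rintro _ ⟨_, ⟨v, rfl⟩, rfl⟩
    rw [hw1]
    exact v.2
  have hker := LinearMap.finrank_range_add_finrank_ker φ
  have hinj : finrank (ZMod 2) (LinearMap.ker φ) ≤ #P := by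
    let ρ : (LinearMap.ker φ) →ₗ[ZMod 2] (P → ZMod 2) :=
      { toFun := fun c p => (c.1.1 : Fin N → ZMod 2) p
        map_add' := fun _ _ => rfl
        map_smul' := fun _ _ => rfl }
    have hρ : Function.Injective ρ := by
      rw [← LinearMap.ker_eq_bot, LinearMap.ker_eq_bot']
      rintro ⟨⟨c, hcE⟩, hcker⟩ hc
      have h0 : comb a c = 0 := by simpa [hφ] using hcker
      have h1 : ∀ p ∈ P, c p = 0 := fun p hp => congrFun hc ⟨p, hp⟩
      have h2 : ∀ i, i ∉ B → c i = 0 := by
        intro i hi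
        by_cases hiU : i ∈ U
        · exact h1 i (mem_sdiff.2 ⟨hiU, hi⟩)
        · exact hsupp c hcE i hiU
      have h3 : ∑ k : κ', c (f' k : U) • a ((f' k : U) : Fin N) = 0 := by
        rw [comb_apply, ← sum_subset (subset_univ B) (fun i _ hi => by rw [h2 i hi, zero_smul]),
          hB, sum_image] at h0
        · exact h0
        · intro k _ k' _ h
          exact hf' (Subtype.ext h)
      have h4 := Fintype.linearIndependent_iff.1 hind' (fun k => c (f' k : U)) h3
      have h5 : c = 0 := by
        funext i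
        by_cases hi : i ∈ B
        · obtain ⟨k, _, rfl⟩ := mem_image.1 hi
          exact h4 k
        · exact h2 i hi
      apply Subtype.ext
      apply Subtype.ext
      exact h5
    have := LinearMap.finrank_le_finrank_of_injective hρ
    rwa [Module.finrank_fintype_fun_eq_card, Fintype.card_coe] at this
  rw [hEdim] at hker
  have hfin : Fintype.card κ ≤ (4 * t + 1) * d0 := by
    have h1 : Fintype.card κ ≤ #P + d0 := by omega
    have h2 : (4 * t + 1) * Fintype.card κ ≤ (4 * t + 1) * #P + (4 * t + 1) * d0 := by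
      calc (4 * t + 1) * Fintype.card κ ≤ (4 * t + 1) * (#P + d0) := Nat.mul_le_mul_left _ h1
        _ = _ := by ring
    have h3 : t * #U ≤ t * (4 * Fintype.card κ) := Nat.mul_le_mul_left _ hUcard
    have h4 : (4 * t + 1) * Fintype.card κ = t * (4 * Fintype.card κ) + Fintype.card κ := by ring
    omega
  have hlast : (#U + 1) ^ 4 ≤ (4 * ((4 * t + 1) * d0) + 1) ^ 4 := by
    apply Nat.pow_le_pow_left
    omega
  omega

end Pool.Agent.Helper63.Bog
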